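import Pool.Agent.H933.LL.Stm9
import Pool.Agent.H539.LL.Ae

/-!
# Couplings outside a null set of a measure with bounded potential: local theorem, general rates
(project LL of helper933, task Aeloc)
-/

set_option autoImplicit false

open MeasureTheory Metric
open scoped Real InnerProductSpace ENNReal

namespace Pool.Agent.H271.LL

open Pool.Agent.H933.LL
open Pool.Agent.H539.LL (gg gg_cont gg_res gg_set gg_open meas_res rp_bound)

/-- the bound for one point `z` -/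
theorem one_pointW (h1 : P_fixmu) {X : Type} [NormedAddCommGroup X] [NormedSpace ℂ X]
    [CompleteSpace X] (S K : X →L[ℂ] X) (E : Set ℂ) (w : ℝ → ℝ) (hw : ∀ d, 0 ≤ w d)
    (hE : IsClosed E) (hEne : E.Nonempty)
    (μ : Measure ℂ) (r B : ℝ) (hr : 0 < r) (hB : 0 ≤ B) (hμ : Pot μ r B) (C : ℝ)
    (hRate : RateW S (((4 * r + 1 : ℝ) : ℂ) • K) E w C) :
    ∃ C₁ A₁ : ℝ, 1 ≤ C₁ ∧ 0 ≤ A₁ ∧ ∀ z : ℂ, z ∉ E →
      (∀ᵐ κ ∂μ, z ∈ resolventSet ℂ (S + κ • K)) ∧
      ∃ D : ℝ, 1 ≤ D ∧ Real.log D = Real.log C₁ + A₁ * (1 + w (min 1 (infDist z E))) ∧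
        ∫⁻ κ, ENNReal.ofReal (Real.posLog ‖resolvent (S + κ • K) z‖) ∂μ ≤
          ENNReal.ofReal D := by
  obtain ⟨Cf, hCf, hfix⟩ := h1 r B hr hB
  have hC0 : 0 ≤ C := by
    obtain ⟨n, -, -, ρ, -, hn, -⟩ := hRate.approx 1 one_pos le_rfl
    have h3 : (0 : ℝ) ≤ Real.log ((n : ℝ) + 1) :=
      Real.log_nonneg (by linarith [(Nat.cast_nonneg n : (0 : ℝ) ≤ n)])
    have h4 : 0 < 1 + w 1 := by linarith [hw 1]
    by_contra hC
    push Not at hC
    nlinarith
  refine ⟨max 1 Cf, 3 * C, le_max_left _ _, by positivity, fun z hz => ?_⟩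
  have hδ : 0 < infDist z E := (hE.notMem_iff_infDist_pos hEne).1 hz
  obtain ⟨d, hd⟩ : ∃ d : ℝ, d = min 1 (infDist z E) := ⟨_, rfl⟩
  have hd0 : 0 < d := by
    rw [hd]
    exact lt_min one_pos hδ
  have hd1 : d ≤ 1 := hd ▸ min_le_left _ _
  have hdδ : d ≤ infDist z E := hd ▸ min_le_right _ _
  obtain ⟨n, φ, f, ρ, hρ, hn, hlρ, hφf, hres, happ⟩ := hRate.approx d hd0 hd1
  have hr1 : (0 : ℝ) < 4 * r + 1 := by linarith
  have hr1c : ((4 * r + 1 : ℝ) : ℂ) ≠ 0 := by exact_mod_cast hr1.ne'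
  have hnr1 : ‖((4 * r + 1 : ℝ) : ℂ)‖ = 4 * r + 1 := by
    rw [Complex.norm_real, Real.norm_eq_abs, abs_of_pos hr1]
  -- the scaled approximation
  have hsum : K - ∑ i, ((((4 * r + 1 : ℝ) : ℂ)⁻¹ • φ i).smulRight (f i)) =
      ((4 * r + 1 : ℝ) : ℂ)⁻¹ • (((4 * r + 1 : ℝ) : ℂ) • K - ∑ i, (φ i).smulRight (f i)) := by
    rw [smul_sub, smul_smul, inv_mul_cancel₀ hr1c, one_smul, Finset.smul_sum]
    congr 1
    refine Finset.sum_congr rfl fun i _ => ?_
    ext x
    simp only [ContinuousLinearMap.smulRight_apply, smul_apply, smul_smul,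
      smul_eq_mul]
  have k1 := hfix X μ S K z ρ n (fun i => ((4 * r + 1 : ℝ) : ℂ)⁻¹ • φ i) f hμ hρ (hRate.res z hz)
    (hres z hdδ) (fun i => ⟨by
      rw [norm_smul, norm_inv, hnr1]
      calc (4 * r + 1)⁻¹ * ‖φ i‖ ≤ 1 * ‖φ i‖ := by
            refine mul_le_mul_of_nonneg_right ?_ (norm_nonneg _)
            exact inv_le_one_of_one_le₀ (by linarith)
        _ ≤ ρ := by
            rw [one_mul]
            exact (hφf i).1, (hφf i).2⟩) (by
      rw [hsum, norm_smul, norm_inv, hnr1]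
      calc (4 * r + 1)⁻¹ * ‖((4 * r + 1 : ℝ) : ℂ) • K - ∑ i, (φ i).smulRight (f i)‖ * ρ *
            (4 * r + 1) = ‖((4 * r + 1 : ℝ) : ℂ) • K - ∑ i, (φ i).smulRight (f i)‖ * ρ := by
              field_simp
        _ ≤ 1 / 2 := happ)
  obtain ⟨k1, k2⟩ := k1
  refine ⟨k1, ?_⟩
  obtain ⟨u, hu⟩ : ∃ u : ℝ, u = C * (1 + w d) := ⟨_, rfl⟩
  have hu0 : 0 ≤ u := by
    rw [hu]
    have := hw d
    positivity
  obtain ⟨t, ht⟩ : ∃ t : ℝ, t = Real.exp u := ⟨_, rfl⟩
  have ht0 : 0 < t := ht ▸ Real.exp_pos _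
  have ht1 : 1 ≤ t := by
    rw [ht]
    exact Real.one_le_exp hu0
  have hlt : Real.log t = C * (1 + w (min 1 (infDist z E))) := by
    rw [ht, Real.log_exp, hu, hd]
  have hC1 : 0 < max 1 Cf := lt_of_lt_of_le one_pos (le_max_left _ _)
  have hn1 : (0 : ℝ) < (n : ℝ) + 1 := by positivity
  have hlr : 0 ≤ Real.log ρ := Real.log_nonneg hρ
  have e1 : (n : ℝ) + 1 ≤ t := by
    rw [ht, ← Real.log_le_iff_le_exp hn1, hu]
    exact hn
  have e2 : 1 + Real.log ρ ≤ t := by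
    rw [ht, ← Real.log_le_iff_le_exp (by linarith), hu]
    exact hlρ
  refine ⟨max 1 Cf * t ^ 3, ?_, ?_, k2.trans (ENNReal.ofReal_le_ofReal ?_)⟩
  · have h4 : 1 ≤ t ^ 3 := one_le_pow₀ ht1
    have h5 : 1 ≤ max 1 Cf := le_max_left _ _
    nlinarith
  · rw [Real.log_mul hC1.ne' (by positivity), Real.log_pow, hlt]
    push_cast
    ring
  · calc Cf * ((n : ℝ) + 1) ^ 2 * (1 + Real.log ρ)
        ≤ Cf * t ^ 2 * t := by
          gcongr
      _ = Cf * t ^ 3 := by ring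
      _ ≤ max 1 Cf * t ^ 3 := by
          gcongr
          exact le_max_right _ _

theorem p_aeloc (h1 : P_fixmu) (h2 : P_jen) : P_aeloc := by
  intro X _ _ _ S K E w q l R hq hE hEne hw hE0 hint hrate μ r B hr hB hμ
  have hq0 : 0 < q := by linarith
  have hmeas := meas_res S K
  have : IsFiniteMeasure μ := ⟨lt_of_le_of_lt hμ.mass ENNReal.ofReal_lt_top⟩
  have hEae : ∀ᵐ z : ℂ ∂(volume.restrict (ball l R)), z ∉ E := by
    rw [ae_iff]
    have h3 : {a : ℂ | ¬ a ∉ E} = E := by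
      ext a
      simp
    rw [h3, Measure.restrict_apply hE.measurableSet]
    exact hE0
  obtain ⟨C, hRate⟩ := hrate (4 * r + 1) (by positivity)
  obtain ⟨C₁, A₁, hC1, hA1, h4⟩ := one_pointW h1 S K E w hw hE hEne μ r B hr hB hμ C hRate
  -- the points of the spectrum
  have hres : ∀ᵐ z : ℂ ∂(volume.restrict (ball l R)), ∀ᵐ κ ∂μ, IsUnit (gg S K (z, κ)) := by
    filter_upwards [hEae] with z hz
    exact (h4 z hz).1
  have hres' : ∀ᵐ κ ∂μ, ∀ᵐ z : ℂ ∂(volume.restrict (ball l R)), IsUnit (gg S K (z, κ)) := by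
    refine (Measure.ae_ae_comm (p := fun z κ => IsUnit (gg S K (z, κ))) ?_).1 hres
    exact (gg_open S K).measurableSet
  -- the integrals
  obtain ⟨F, hF⟩ : ∃ F : ℂ → ℂ → ℝ, F = fun z κ =>
      (Real.posLog (Real.posLog ‖Ring.inverse (gg S K (z, κ))‖)) ^ q := ⟨_, rfl⟩
  have hpl : Measurable Real.posLog := Real.continuous_posLog.measurable
  have hFm : Measurable (Function.uncurry F) := by
    rw [hF]
    have h3 : Measurable fun p : ℂ × ℂ =>
        Real.posLog (Real.posLog ‖Ring.inverse (gg S K p)‖) := hpl.comp (hpl.comp hmeas)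
    exact h3.pow_const q
  have hF0 : ∀ z κ, 0 ≤ F z κ := by
    intro z κ
    rw [hF]
    exact Real.rpow_nonneg Real.posLog_nonneg _
  have hFofm : Measurable (Function.uncurry fun z κ => ENNReal.ofReal (F z κ)) :=
    ENNReal.measurable_ofReal.comp hFm
  obtain ⟨Cq, hCq, hjen⟩ := h2 q hq
  obtain ⟨a, ha⟩ : ∃ a : ℝ, a = 1 + Real.log C₁ + A₁ := ⟨_, rfl⟩
  have hlC : 0 ≤ Real.log C₁ := Real.log_nonneg hC1
  obtain ⟨c, hc⟩ : ∃ c : ℝ, c = Cq * (B + 1) * (a ^ q * 2 ^ q) := ⟨_, rfl⟩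
  have ha0 : 0 < a := by
    rw [ha]
    linarith
  have hc0 : 0 ≤ c := by
    rw [hc]
    positivity
  have hbound : ∀ z : ℂ, z ∉ E → ∫⁻ κ, ENNReal.ofReal (F z κ) ∂μ ≤
      ENNReal.ofReal (c * (1 + (w (min 1 (infDist z E))) ^ q)) := by
    intro z hz
    obtain ⟨-, D, hD1, hD2, hD3⟩ := h4 z hz
    have h5 := hjen μ B D (fun κ => Real.posLog ‖Ring.inverse (gg S K (z, κ))‖) hμ.mass
      hB hD1 (hpl.comp (hmeas.comp measurable_prodMk_left)).aemeasurable
      (fun κ => Real.posLog_nonneg) hD3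
    rw [hF]
    refine h5.trans (ENNReal.ofReal_le_ofReal ?_)
    have hL : 0 ≤ w (min 1 (infDist z E)) := hw _
    have h6 : 1 + Real.log D ≤ a * (1 + w (min 1 (infDist z E))) := by
      rw [hD2, ha]
      nlinarith
    have h7 : 0 ≤ 1 + Real.log D := by
      have := Real.log_nonneg hD1
      linarith
    calc Cq * (B + 1) * (1 + Real.log D) ^ q
        ≤ Cq * (B + 1) * (a * (1 + w (min 1 (infDist z E)))) ^ q := by
          gcongr
      _ = Cq * (B + 1) * (a ^ q * (1 + w (min 1 (infDist z E))) ^ q) := by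
          rw [Real.mul_rpow ha0.le (by linarith)]
      _ ≤ Cq * (B + 1) * (a ^ q * (2 ^ q * (1 + (w (min 1 (infDist z E))) ^ q))) := by
          gcongr
          exact rp_bound hq0 hL
      _ = c * (1 + (w (min 1 (infDist z E))) ^ q) := by
          rw [hc]
          ring
  have hfin : ∀ᵐ κ ∂μ, ∫⁻ z in ball l R, ENNReal.ofReal (F z κ) < ∞ := by
    have hI : IntegrableOn (fun z : ℂ => c * (1 + (w (min 1 (infDist z E))) ^ q))
        (ball l R) := by
      have h5 : IntegrableOn (fun _ : ℂ => (1 : ℝ)) (ball l R) :=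
        integrableOn_const (measure_ball_lt_top.ne)
      exact (h5.add hint).const_mul c
    have h6 : ∫⁻ z in ball l R, (∫⁻ κ, ENNReal.ofReal (F z κ) ∂μ) < ∞ := by
      refine lt_of_le_of_lt (lintegral_mono_ae ?_) (Integrable.lintegral_lt_top hI)
      filter_upwards [hEae] with z hz
      exact hbound z hz
    have h7 : ∫⁻ κ, (∫⁻ z in ball l R, ENNReal.ofReal (F z κ)) ∂μ < ∞ := by
      rw [← lintegral_lintegral_swap]
      · exact h6
      · exact hFofm.aemeasurable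
    refine ae_lt_top ?_ h7.ne
    exact Measurable.lintegral_prod_left' (f := Function.uncurry fun z κ =>
      ENNReal.ofReal (F z κ)) hFofm
  filter_upwards [hres', hfin] with κ hκ1 hκ2
  refine ⟨?_, ?_⟩
  · rw [ae_iff, Measure.restrict_apply' measurableSet_ball] at hκ1
    exact hκ1
  · have h4 : IntegrableOn (fun z => F z κ) (ball l R) := by
      refine ⟨?_, ?_⟩
      · exact (hFm.comp measurable_prodMk_right).aestronglyMeasurable
      · rw [hasFiniteIntegral_iff_ofReal (Filter.Eventually.of_forall fun z => hF0 z κ)]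
        exact hκ2
    rw [hF] at h4
    exact h4

end Pool.Agent.H271.LL
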