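import Pool.Agent.H933.LL.Stm4

/-!
# Closed spectral subspaces under the log-log condition (proof of `P_clos` from `P_domar`)
-/

set_option autoImplicit false

open MeasureTheory Metric Filter Topology Set
open scoped Real

namespace Pool.Agent.H271.LL

open Pool.Agent.H933.LL

variable {X : Type} [NormedAddCommGroup X] [NormedSpace ℂ X]

/-- the two equations for the resolvent off the spectrum -/
lemma res_left [CompleteSpace X] (T : X →L[ℂ] X) {z : ℂ} (hz : z ∉ spectrum ℂ T) (v : X) :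
    resolvent T z (z • v - T v) = v := by
  have hu : IsUnit (algebraMap ℂ (X →L[ℂ] X) z - T) := by
    simpa [spectrum.notMem_iff] using hz
  have h := Ring.inverse_mul_cancel _ hu
  have h2 := congrArg (fun A : X →L[ℂ] X => A v) h
  simpa [resolvent, Algebra.algebraMap_eq_smul_one, mul_apply_eq_comp] using h2

lemma res_right [CompleteSpace X] (T : X →L[ℂ] X) {z : ℂ} (hz : z ∉ spectrum ℂ T) (v : X) :
    z • resolvent T z v - T (resolvent T z v) = v := by
  have hu : IsUnit (algebraMap ℂ (X →L[ℂ] X) z - T) := by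
    simpa [spectrum.notMem_iff] using hz
  have h := Ring.mul_inverse_cancel _ hu
  have h2 := congrArg (fun A : X →L[ℂ] X => A v) h
  simpa [resolvent, Algebra.algebraMap_eq_smul_one, mul_apply_eq_comp] using h2

lemma eq_res [CompleteSpace X] (T : X →L[ℂ] X) {z : ℂ} (hz : z ∉ spectrum ℂ T) {v x : X}
    (h : z • v - T v = x) : v = resolvent T z x := by
  rw [← h, res_left T hz]

/-- the complement of a null set is dense -/
lemma dense_compl (S : Set ℂ) (h : volume S = 0) : Dense Sᶜ := by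
  have h1 : ∀ᵐ z ∂(volume : Measure ℂ), z ∈ Sᶜ := by
    rw [ae_iff]
    simpa using h
  exact Measure.dense_of_ae h1

/-- two continuous functions which agree off a null set agree on an open set -/
lemma eq_of_null {Y : Type} [TopologicalSpace Y] [T2Space Y] {S U : Set ℂ} (hS : volume S = 0)
    (hU : IsOpen U) {f g : ℂ → Y} (hf : ContinuousOn f U) (hg : ContinuousOn g U)
    (h : ∀ z ∈ U, z ∉ S → f z = g z) : ∀ z ∈ U, f z = g z := by
  have hd := dense_compl S hS
  intro z hz
  have h1 : U ⊆ closure (U ∩ Sᶜ) := hd.open_subset_closure_inter hU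
  have h2 : Set.EqOn f g (U ∩ Sᶜ) := fun w hw => h w hw.1 hw.2
  exact h2.of_subset_closure hf hg Set.inter_subset_left h1 hz

/-- the local resolvent is unique -/
lemma loc_unique [CompleteSpace X] (T : X →L[ℂ] X) (hS : volume (spectrum ℂ T) = 0) {U : Set ℂ}
    (hU : IsOpen U) {f g : ℂ → X} {x : X} (hf : ContinuousOn f U) (hg : ContinuousOn g U)
    (h1 : ∀ z ∈ U, z • f z - T (f z) = x) (h2 : ∀ z ∈ U, z • g z - T (g z) = x) :
    ∀ z ∈ U, f z = g z := by
  apply eq_of_null hS hU hf hg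
  intro z hz hz'
  rw [eq_res T hz' (h1 z hz), eq_res T hz' (h2 z hz)]

/-- local spectra are contained in the spectrum -/
lemma loc_spec [CompleteSpace X] (T : X →L[ℂ] X) (x : X) : LocSpec T (spectrum ℂ T) x := by
  refine ⟨fun z => resolvent T z x, ?_, fun z hz => res_right T hz x⟩
  intro z hz
  have hz' : z ∈ resolventSet ℂ T := by
    simpa [spectrum] using hz
  have h := (spectrum.hasDerivAt_resolvent_const_left hz').differentiableAt
  exact (h.clm_apply (differentiableAt_const x)).differentiableWithinAt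

/-- intersection of local spectra -/
lemma loc_inter [CompleteSpace X] (T : X →L[ℂ] X) (hS : volume (spectrum ℂ T) = 0) {F F' : Set ℂ}
    {x : X} (hF : IsClosed F) (hF' : IsClosed F') (h : LocSpec T F x) (h' : LocSpec T F' x) :
    LocSpec T (F ∩ F') x := by
  classical
  obtain ⟨f, hf, hfe⟩ := h
  obtain ⟨g, hg, hge⟩ := h'
  have hfg : ∀ z ∈ Fᶜ ∩ F'ᶜ, f z = g z := by
    apply loc_unique T hS (hF.isOpen_compl.inter hF'.isOpen_compl)
      (hf.continuousOn.mono Set.inter_subset_left) (hg.continuousOn.mono Set.inter_subset_right)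
    · intro z hz
      exact hfe z hz.1
    · intro z hz
      exact hge z hz.2
  set k : ℂ → X := fun z => if z ∈ F then g z else f z with hk
  have hk1 : ∀ z ∉ F, k z = f z := fun z hz => by simp [hk, hz]
  have hk2 : ∀ z ∉ F', k z = g z := by
    intro z hz
    by_cases hzF : z ∈ F
    · simp [hk, hzF]
    · simp only [hk, hzF, if_false]
      exact hfg z ⟨hzF, hz⟩
  refine ⟨k, ?_, ?_⟩
  · intro z hz
    rw [Set.mem_compl_iff, Set.mem_inter_iff, not_and_or] at hz
    rcases hz with hz | hz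
    · have h1 : DifferentiableAt ℂ f z := hf.differentiableAt (hF.isOpen_compl.mem_nhds hz)
      have h2 : k =ᶠ[𝓝 z] f := by
        filter_upwards [hF.isOpen_compl.mem_nhds hz] with w hw using hk1 w hw
      exact (h2.differentiableAt_iff.mpr h1).differentiableWithinAt
    · have h1 : DifferentiableAt ℂ g z := hg.differentiableAt (hF'.isOpen_compl.mem_nhds hz)
      have h2 : k =ᶠ[𝓝 z] g := by
        filter_upwards [hF'.isOpen_compl.mem_nhds hz] with w hw using hk2 w hw
      exact (h2.differentiableAt_iff.mpr h1).differentiableWithinAt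
  · intro z hz
    rw [Set.mem_inter_iff, not_and_or] at hz
    rcases hz with hz | hz
    · rw [hk1 z hz]; exact hfe z hz
    · rw [hk2 z hz]; exact hge z hz

lemma loc_zero (T : X →L[ℂ] X) (F : Set ℂ) : LocSpec T F 0 :=
  ⟨fun _ => 0, differentiableOn_const 0, fun z _ => by simp⟩

lemma loc_add (T : X →L[ℂ] X) (F : Set ℂ) {x y : X} (hx : LocSpec T F x) (hy : LocSpec T F y) :
    LocSpec T F (x + y) := by
  obtain ⟨f, hf, hfe⟩ := hx
  obtain ⟨g, hg, hge⟩ := hy
  refine ⟨fun z => f z + g z, hf.add hg, fun z hz => ?_⟩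
  rw [← hfe z hz, ← hge z hz]
  simp only [smul_add, map_add]
  abel

lemma loc_smul (T : X →L[ℂ] X) (F : Set ℂ) (c : ℂ) {x : X} (hx : LocSpec T F x) :
    LocSpec T F (c • x) := by
  obtain ⟨f, hf, hfe⟩ := hx
  refine ⟨fun z => c • f z, hf.const_smul c, fun z hz => ?_⟩
  rw [← hfe z hz]
  simp only [smul_sub, map_smul]
  rw [smul_comm]

/-- the spectral subspace -/
def Sp (T : X →L[ℂ] X) (F : Set ℂ) : Submodule ℂ X where
  carrier := {x | LocSpec T F x}
  add_mem' := fun hx hy => loc_add T F hx hy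
  zero_mem' := loc_zero T F
  smul_mem' := fun c _ hx => loc_smul T F c hx

lemma mem_Sp (T : X →L[ℂ] X) (F : Set ℂ) (x : X) : x ∈ Sp T F ↔ LocSpec T F x := Iff.rfl

lemma loc_comm (T Q : X →L[ℂ] X) (hQ : Q * T = T * Q) (F : Set ℂ) {x : X} (hx : LocSpec T F x) :
    LocSpec T F (Q x) := by
  obtain ⟨f, hf, hfe⟩ := hx
  refine ⟨fun z => Q (f z), ?_, fun z hz => ?_⟩
  · exact Q.differentiable.comp_differentiableOn hf
  · have h := congrArg (fun A : X →L[ℂ] X => A (f z)) hQ
    simp only [mul_apply_eq_comp] at h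
    rw [← hfe z hz, map_sub, map_smul, h]

/-- the local resolvent at a point off `F` is in the spectral subspace -/
lemma loc_at [CompleteSpace X] (T : X →L[ℂ] X) (F : Set ℂ) (hF : IsClosed F) {y : X} {f : ℂ → X}
    (hf : DifferentiableOn ℂ f Fᶜ) (hfe : ∀ z ∉ F, z • f z - T (f z) = y) {z₀ : ℂ} (hz₀ : z₀ ∉ F) :
    LocSpec T F (f z₀) := by
  have hd : DifferentiableOn ℂ (dslope f z₀) Fᶜ :=
    (Complex.differentiableOn_dslope (hF.isOpen_compl.mem_nhds hz₀)).mpr hf
  refine ⟨fun z => -dslope f z₀ z, hd.neg, ?_⟩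
  have key : ∀ z ∉ F, z ≠ z₀ → z • (-dslope f z₀ z) - T (-dslope f z₀ z) = f z₀ := by
    intro z hz hne
    have hne' : z - z₀ ≠ 0 := sub_ne_zero.mpr hne
    have h1 : dslope f z₀ z = (z - z₀)⁻¹ • (f z - f z₀) := by
      rw [dslope_of_ne f hne, slope_def_module]
    have h2 := hfe z hz
    have h3 := hfe z₀ hz₀
    have h4 : z • (f z - f z₀) - T (f z - f z₀) = -((z - z₀) • f z₀) := by
      rw [map_sub, smul_sub, sub_smul]
      have h5 : T (f z) = z • f z - y := by rw [← h2]; abel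
      have h6 : T (f z₀) = z₀ • f z₀ - y := by rw [← h3]; abel
      rw [h5, h6]
      abel
    rw [h1, smul_neg, map_neg, map_smul, smul_comm z, ← neg_sub', ← smul_sub, h4, smul_neg, neg_neg,
      smul_smul, inv_mul_cancel₀ hne', one_smul]
  intro z hz
  by_cases hne : z = z₀
  · subst hne
    have hc : ContinuousAt (fun w => w • (-dslope f z w) - T (-dslope f z w)) z := by
      have hdc : ContinuousAt (dslope f z) z :=
        (hd.continuousOn).continuousAt (hF.isOpen_compl.mem_nhds hz)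
      exact (continuousAt_id.smul hdc.neg).sub (T.continuous.continuousAt.comp hdc.neg)
    have h1 : Tendsto (fun w => w • (-dslope f z w) - T (-dslope f z w)) (𝓝[≠] z)
        (𝓝 (z • (-dslope f z z) - T (-dslope f z z))) := hc.tendsto.mono_left nhdsWithin_le_nhds
    have h2 : Tendsto (fun w => w • (-dslope f z w) - T (-dslope f z w)) (𝓝[≠] z)
        (𝓝 (f z)) := by
      apply Tendsto.congr' _ tendsto_const_nhds
      have h3 : Fᶜ ∈ 𝓝[≠] z := mem_nhdsWithin_of_mem_nhds (hF.isOpen_compl.mem_nhds hz)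
      filter_upwards [h3, self_mem_nhdsWithin] with w hw hw'
      exact (key w hw hw').symm
    exact tendsto_nhds_unique h1 h2
  · exact key z hz hne

/-- `z₀ - T` is injective on the spectral subspace for `z₀ ∉ F` -/
lemma loc_inj [CompleteSpace X] (T : X →L[ℂ] X) (hS : volume (spectrum ℂ T) = 0) (F : Set ℂ)
    (hF : IsClosed F) {y : X} (hy : LocSpec T F y) {z₀ : ℂ} (hz₀ : z₀ ∉ F)
    (h0 : z₀ • y - T y = 0) : y = 0 := by
  obtain ⟨f, hf, hfe⟩ := hy
  have h1 : ∀ z ∈ Fᶜ, (z - z₀) • f z = y := by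
    apply eq_of_null (f := fun z => (z - z₀) • f z) (g := fun _ => y) hS hF.isOpen_compl
    · exact ((continuousOn_id.sub continuousOn_const).smul hf.continuousOn)
    · exact continuousOn_const
    · intro z hz hzs
      have h2 : z • y - T y = (z - z₀) • y := by
        have h3 : T y = z₀ • y := by
          rw [sub_eq_zero] at h0
          exact h0.symm
        rw [h3, sub_smul]
      have h4 : f z = resolvent T z y := eq_res T hzs (hfe z hz)
      show (z - z₀) • f z = y
      rw [h4, ← map_smul, ← h2, res_left T hzs]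
  have h2 := h1 z₀ hz₀
  rw [sub_self, zero_smul] at h2
  exact h2.symm

/-- the main estimate: the local resolvent is bounded by a constant times the norm of the vector -/
lemma loc_bound [CompleteSpace X] (hdom : P_domar) (T : X →L[ℂ] X) (q : ℝ) (hq : 1 < q)
    (hL : LogLog T q) (r ρ : ℝ) (hρ : 0 < ρ) :
    ∃ C : ℝ, 0 < C ∧ ∀ (z₀ : ℂ) (U : Set ℂ) (f : ℂ → X) (x : X), IsOpen U → closedBall z₀ ρ ⊆ U →
      closedBall z₀ ρ ⊆ ball (0 : ℂ) r → DifferentiableOn ℂ f U →
      (∀ z ∈ U, z • f z - T (f z) = x) → ‖f z₀‖ ≤ C * ‖x‖ := by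
  obtain ⟨hnull, hint⟩ := hL
  set I : ℝ := ∫ z in ball (0 : ℂ) r, (Real.posLog (Real.posLog ‖resolvent T z‖)) ^ q with hI
  have hnn : ∀ s : ℝ, 0 ≤ (Real.posLog (Real.posLog s)) ^ q := fun s =>
    Real.rpow_nonneg Real.posLog_nonneg _
  have hI0 : 0 ≤ I := integral_nonneg fun z => hnn _
  obtain ⟨C, hC, hdom'⟩ := hdom q I ρ hq hI0 hρ
  refine ⟨C, hC, ?_⟩
  intro z₀ U f x hU hB hB' hf hfe
  have hz₀ : z₀ ∈ U := hB (mem_closedBall_self hρ.le)
  by_cases hx : x = 0
  · have h1 : f z₀ = 0 := by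
      have h2 := loc_unique T hnull hU (f := f) (g := fun _ => 0) (x := x) hf.continuousOn
        continuousOn_const hfe (fun z _ => by simp [hx])
      exact h2 z₀ hz₀
    rw [h1, hx]
    simp
  have hxn : 0 < ‖x‖ := norm_pos_iff.mpr hx
  obtain ⟨ψ, hψ, hψf⟩ := exists_dual_vector'' ℂ (f z₀)
  have hg := hdom' (fun z => ((‖x‖ : ℝ) : ℂ)⁻¹ * ψ (f z)) U z₀ hU hB
    ((ψ.differentiable.comp_differentiableOn hf).const_mul _) ?_
  · simp only [norm_mul, norm_inv, Complex.norm_real, norm_norm] at hg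
    rw [hψf] at hg
    have h1 : ‖((‖f z₀‖ : ℝ) : ℂ)‖ = ‖f z₀‖ := by simp
    have h2 : ‖x‖⁻¹ * ‖f z₀‖ ≤ C := by simpa using hg
    rw [inv_mul_le_iff₀ hxn] at h2
    linarith [mul_comm C ‖x‖]
  · have hsub : ball z₀ ρ ⊆ ball (0 : ℂ) r := ball_subset_closedBall.trans hB'
    have hle : (∫ z in ball z₀ ρ, (Real.posLog (Real.posLog ‖resolvent T z‖)) ^ q) ≤ I := by
      rw [hI]
      apply setIntegral_mono_set (hint r)
      · exact ae_of_all _ fun z => hnn _
      · exact hsub.eventuallyLE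
    refine le_trans ?_ hle
    apply integral_mono_of_nonneg
    · exact ae_of_all _ fun z => hnn _
    · exact (hint r).mono_set hsub
    · have h1 : ∀ᵐ z ∂(volume : Measure ℂ), z ∉ spectrum ℂ T := by
        rw [ae_iff]
        simpa using hnull
      filter_upwards [ae_restrict_mem measurableSet_ball, ae_restrict_of_ae h1] with z hz hzs
      have hzU : z ∈ U := hB (ball_subset_closedBall hz)
      have h2 : f z = resolvent T z x := eq_res T hzs (hfe z hzU)
      have h3 : ‖((‖x‖ : ℝ) : ℂ)⁻¹ * ψ (f z)‖ ≤ ‖resolvent T z‖ := by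
        rw [norm_mul, norm_inv, Complex.norm_real, norm_norm, inv_mul_le_iff₀ hxn, h2]
        calc ‖ψ (resolvent T z x)‖ ≤ ‖ψ‖ * ‖resolvent T z x‖ := ψ.le_opNorm _
          _ ≤ 1 * ‖resolvent T z x‖ := by gcongr
          _ = ‖resolvent T z x‖ := one_mul _
          _ ≤ ‖resolvent T z‖ * ‖x‖ := (resolvent T z).le_opNorm x
          _ = ‖x‖ * ‖resolvent T z‖ := mul_comm _ _
      show (Real.posLog (Real.posLog ‖((‖x‖ : ℝ) : ℂ)⁻¹ * ψ (f z)‖)) ^ q ≤ _
      have h4 : Real.posLog ‖((‖x‖ : ℝ) : ℂ)⁻¹ * ψ (f z)‖ ≤ Real.posLog ‖resolvent T z‖ :=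
        Real.posLog_le_posLog (norm_nonneg _) h3
      have h5 := Real.posLog_le_posLog Real.posLog_nonneg h4
      exact Real.rpow_le_rpow Real.posLog_nonneg h5 (by linarith)

/-- the spectral subspace is closed -/
lemma loc_closed [CompleteSpace X] (hdom : P_domar) (T : X →L[ℂ] X) (q : ℝ) (hq : 1 < q)
    (hL : LogLog T q) (F : Set ℂ) (hF : IsClosed F) : IsClosed {x : X | LocSpec T F x} := by
  have hnull := hL.1
  apply IsSeqClosed.isClosed
  intro x p hx hxp
  have hx' : ∀ n, LocSpec T F (x n) := hx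
  choose f hf hfe using hx'
  -- local bounds
  have hloc : ∀ z₀ ∈ Fᶜ, ∃ ρ > 0, ∃ C > 0, ball z₀ ρ ⊆ Fᶜ ∧ ∀ z ∈ ball z₀ ρ, ∀ n m,
      ‖f n z - f m z‖ ≤ C * ‖x n - x m‖ := by
    intro z₀ hz₀
    obtain ⟨ε, hε, hεF⟩ := Metric.isOpen_iff.mp hF.isOpen_compl z₀ hz₀
    obtain ⟨C, hC, hb⟩ := loc_bound hdom T q hq hL (‖z₀‖ + ε) (ε / 3) (by positivity)
    refine ⟨ε / 3, by positivity, C, hC, ?_, ?_⟩
    · exact (ball_subset_ball (by linarith)).trans hεF
    · intro z hz n m
      rw [mem_ball] at hz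
      have hsub : closedBall z (ε / 3) ⊆ ball z₀ ε := by
        intro w hw
        rw [mem_closedBall] at hw
        rw [mem_ball]
        calc dist w z₀ ≤ dist w z + dist z z₀ := dist_triangle _ _ _
          _ < ε := by linarith
      apply hb z Fᶜ (fun w => f n w - f m w) (x n - x m) hF.isOpen_compl (hsub.trans hεF)
      · intro w hw
        have h1 := hsub hw
        rw [mem_ball, dist_eq_norm] at h1
        rw [mem_ball_zero_iff]
        calc ‖w‖ = ‖z₀ + (w - z₀)‖ := by congr 1; ring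
          _ ≤ ‖z₀‖ + ‖w - z₀‖ := norm_add_le _ _
          _ < ‖z₀‖ + ε := by linarith
      · exact (hf n).sub (hf m)
      · intro w hw
        rw [← hfe n w hw, ← hfe m w hw, smul_sub, map_sub]
        abel
  have hcau : CauchySeq x := hxp.cauchySeq
  have hpt : ∀ z ∈ Fᶜ, CauchySeq fun n => f n z := by
    intro z hz
    obtain ⟨ρ, hρ, C, hC, -, hb⟩ := hloc z hz
    rw [Metric.cauchySeq_iff] at hcau ⊢
    intro ε hε
    obtain ⟨N, hN⟩ := hcau (ε / C) (by positivity)
    refine ⟨N, fun m hm n hn => ?_⟩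
    have h1 := hb z (mem_ball_self hρ) m n
    have h2 := hN m hm n hn
    rw [dist_eq_norm] at h2 ⊢
    calc ‖f m z - f n z‖ ≤ C * ‖x m - x n‖ := h1
      _ < C * (ε / C) := by gcongr
      _ = ε := by field_simp
  have hlim : ∀ z : ℂ, ∃ y : X, z ∈ Fᶜ → Tendsto (fun n => f n z) atTop (𝓝 y) := by
    intro z
    by_cases hz : z ∈ Fᶜ
    · obtain ⟨y, hy⟩ := cauchySeq_tendsto_of_complete (hpt z hz)
      exact ⟨y, fun _ => hy⟩
    · exact ⟨0, fun h => absurd h hz⟩
  choose g hg using hlim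
  have hunif : TendstoLocallyUniformlyOn f g atTop Fᶜ := by
    rw [Metric.tendstoLocallyUniformlyOn_iff]
    intro ε hε z₀ hz₀
    obtain ⟨ρ, hρ, C, hC, hsub, hb⟩ := hloc z₀ hz₀
    refine ⟨ball z₀ ρ, mem_nhdsWithin_of_mem_nhds (ball_mem_nhds z₀ hρ), ?_⟩
    have h1 : Tendsto (fun n => C * ‖x n - p‖) atTop (𝓝 (C * 0)) := by
      apply Tendsto.const_mul
      have h2 := (hxp.sub_const p).norm
      simpa using h2
    rw [mul_zero] at h1
    filter_upwards [h1.eventually_lt_const hε] with n hn z hz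
    rw [dist_comm, dist_eq_norm]
    refine lt_of_le_of_lt ?_ hn
    have h3 : Tendsto (fun m => ‖f n z - f m z‖) atTop (𝓝 ‖f n z - g z‖) :=
      (tendsto_const_nhds.sub (hg z (hsub hz))).norm
    have h4 : Tendsto (fun m => C * ‖x n - x m‖) atTop (𝓝 (C * ‖x n - p‖)) :=
      ((tendsto_const_nhds.sub hxp).norm).const_mul C
    exact le_of_tendsto_of_tendsto' h3 h4 fun m => hb z hz n m
  have hgd : DifferentiableOn ℂ g Fᶜ :=
    hunif.differentiableOn (Eventually.of_forall hf) hF.isOpen_compl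
  refine ⟨g, hgd, ?_⟩
  intro z hz
  have h1 : Tendsto (fun n => z • f n z - T (f n z)) atTop (𝓝 (z • g z - T (g z))) :=
    ((hg z hz).const_smul z).sub ((T.continuous.tendsto _).comp (hg z hz))
  have h2 : Tendsto (fun n => z • f n z - T (f n z)) atTop (𝓝 p) := by
    apply hxp.congr
    intro n
    exact (hfe n z hz).symm
  exact tendsto_nhds_unique h1 h2

theorem p_clos (h : P_domar) : P_clos := by
  intro X _ _ _ T q hq hL
  refine ⟨?_, ?_, loc_spec T⟩
  · intro F hF
    refine ⟨Sp T F, mem_Sp T F, loc_closed h T q hq hL F hF, ?_, ?_⟩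
    · intro Q hQ x hx
      exact loc_comm T Q hQ F hx
    · intro z hz y hy
      obtain ⟨f, hf, hfe⟩ := hy
      refine ⟨f z, ⟨loc_at T F hF hf hfe hz, hfe z hz⟩, ?_⟩
      rintro w ⟨hw, hwe⟩
      have h1 : w - f z = 0 := by
        apply loc_inj T hL.1 F hF (z₀ := z) ((Sp T F).sub_mem hw (loc_at T F hF hf hfe hz)) hz
        rw [smul_sub, map_sub]
        have h2 := hfe z hz
        calc z • w - z • f z - (T w - T (f z)) = (z • w - T w) - (z • f z - T (f z)) := by abel
          _ = 0 := by rw [hwe, h2, sub_self]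
      exact sub_eq_zero.mp h1
  · intro F F' x hF hF' hx hx'
    exact loc_inter T hL.1 hF hF' hx hx'

end Pool.Agent.H271.LL
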